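import Pool.Agent.Work.MP_f00281_mq.Final

/-!
# MP_f00281_co: the smallest orders of misere quotients with elements of period 3, 4, 6

Definitions (`Game`, `add`, `IsP`, `Closed`, `Eqv`, `Qt`, `HasPeriod`, `Orders`, `leastOrder`) are in
`Pool.Agent.Work.MP_f00281_mq.Defs`.
-/

namespace Pool.Agent.Results.MP_f00281_co.PeriodsThreeFourSix

open Pool.Agent.Work.MP_f00281_mq

theorem result :
    (∀ A : Set Game, Closed A → ∀ p : ℕ, Odd p → 3 ≤ p →
      ((∃ G ∈ A, HasPeriod A G p) ↔ ∃ G ∈ A, HasPeriod A G (2 * p))) ∧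
    Orders 3 = Orders 6 ∧ leastOrder 3 = leastOrder 6 ∧
    48 ∈ Orders 3 ∧ leastOrder 3 ≤ 48 ∧ leastOrder 6 ≤ 48 ∧
    36 ∈ Orders 4 ∧ leastOrder 4 ≤ 36 :=
  final

end Pool.Agent.Results.MP_f00281_co.PeriodsThreeFourSix
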